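import Pool.Agent.Lib.MP_ffb813_an_h7.Bridge

/-! Weak asymptotic Toeplitzness of composition operators on the Hardy space `H^2`, with the
operators themselves. -/

set_option autoImplicit false

namespace Pool.Agent.Results.MP_ffb813_an.NullSymbol

open Metric
open Pool.Agent.Lib.MP_ffb813_an_h7

/-- Every analytic selfmap `φ` of the disc has exactly one bounded composition operator `C` on
`H^2`. With `M` the multiplication by `z`, the operators `M^{*n} C M^n` tend weakly to zero exactly
if `φ` is neither the identity nor a rotation, and they have a weak limit exactly if `φ` is not a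
rotation. -/
theorem result (φ : ℂ → ℂ) (hφ : DifferentiableOn ℂ φ (ball (0 : ℂ) 1))
    (hm : Set.MapsTo φ (ball (0 : ℂ) 1) (ball (0 : ℂ) 1)) :
    (∃! M : Hardy →L[ℂ] Hardy, IsMulZ M) ∧ (∃! C : Hardy →L[ℂ] Hardy, IsCompOp φ C) ∧
      ∀ M C : Hardy →L[ℂ] Hardy, IsMulZ M → IsCompOp φ C →
        (WeakLim M C 0 ↔ ¬ IsIdentity φ ∧ ¬ IsRotation φ) ∧
          ((∃ A : Hardy →L[ℂ] Hardy, WeakLim M C A) ↔ ¬ IsRotation φ) :=
  ⟨existsUnique_Mz, existsUnique_comp hφ hm, fun M C hM hC => main_H2 hφ hm M C hM hC⟩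

end Pool.Agent.Results.MP_ffb813_an.NullSymbol
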